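import Pool.Agent.R380.Exc.Final

/-!
MP_5069ae_gt, Q1: the answer is negative in every dimension `n ≥ 3`.
There are a compact connected `K ⊆ ℝ^n`, points `p, q ∈ K` and `ε > 0` such that every curve from
`p` to `q` spends length at least `ε` outside `K`. (Paper proof: helper744; formalised with a
simplified set `K` by helper380.)
-/

namespace Pool.Agent.Results.MP_5069ae_gt.NoShortExcursions

open Set R380.Exc

theorem result (n : ℕ) (hn : 3 ≤ n) :
    ∃ K : Set (EuclideanSpace ℝ (Fin n)), IsCompact K ∧ IsConnected K ∧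
      ∃ p ∈ K, ∃ q ∈ K, ∃ ε : ℝ, 0 < ε ∧
        ∀ γ : ℝ → EuclideanSpace ℝ (Fin n), ContinuousOn γ (Icc 0 1) → γ 0 = p → γ 1 = q →
          ENNReal.ofReal ε ≤ lengthOutside K γ := by
  refine ⟨Kset n, K_compact n, K_connected n, pt n (fun _ => 0) 0, ?_, pt n (fun _ => 4) 0, ?_,
    1 / 12000, by norm_num, fun γ hγ h0 h1 => main hn γ hγ h0 h1⟩
  · exact ⟨(fun _ => 0, 0), ⟨mem_univ _, by simp⟩, rfl⟩
  · exact ⟨(fun _ => 4, 0), ⟨mem_univ _, by simp⟩, rfl⟩

end Pool.Agent.Results.MP_5069ae_gt.NoShortExcursions
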