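import Mathlib
import Pool.Agent.R674.EX.Curve
import Pool.Agent.R674.EX.Top

/-!
# MP_5069ae, Q1: a compact connected set without short excursions

For every `n ≥ 3` there are a compact connected set `K ⊆ ℝⁿ`, two points `p, q ∈ K` and `ε > 0`
such that every curve from `p` to `q` spends at least the length `ε` outside of `K`.
-/

namespace Pool.Agent.Results.MP_5069ae_gt.ShortExcursions

open Set Filter Topology MeasureTheory Pool.Agent.R674.EX
open scoped ENNReal

/-- embedding of `ℝ³` -/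
noncomputable def emb (n : ℕ) (z : ℝ × ℝ × ℝ) : EuclideanSpace ℝ (Fin n) :=
  WithLp.toLp 2 (fun i => if i.val = 0 then z.1 else if i.val = 1 then z.2.1 else
    if i.val = 2 then z.2.2 else 0)

/-- projection to `ℝ³` -/
def prj {n : ℕ} (hn : 3 ≤ n) (w : EuclideanSpace ℝ (Fin n)) : ℝ × ℝ × ℝ :=
  (w ⟨0, by omega⟩, w ⟨1, by omega⟩, w ⟨2, by omega⟩)

theorem prj_emb {n : ℕ} (hn : 3 ≤ n) (z : ℝ × ℝ × ℝ) : prj hn (emb n z) = z := by
  unfold prj emb
  simp

theorem coord_dist {n : ℕ} (w w' : EuclideanSpace ℝ (Fin n)) (i : Fin n) :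
    dist (w i) (w' i) ≤ dist w w' := by
  rw [dist_eq_norm, dist_eq_norm]
  have := PiLp.norm_apply_le (w - w') i
  simpa using this

theorem prj_dist {n : ℕ} (hn : 3 ≤ n) (w w' : EuclideanSpace ℝ (Fin n)) :
    dist (prj hn w) (prj hn w') ≤ dist w w' := by
  rw [Prod.dist_eq, Prod.dist_eq]
  exact max_le (coord_dist w w' _) (max_le (coord_dist w w' _) (coord_dist w w' _))

theorem emb_cont (n : ℕ) : Continuous (emb n) := by
  unfold emb
  apply (PiLp.continuous_toLp 2 _).comp
  apply continuous_pi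
  intro i
  split_ifs
  · exact continuous_fst
  · exact continuous_fst.comp continuous_snd
  · exact continuous_snd.comp continuous_snd
  · exact continuous_const

theorem prj_cont {n : ℕ} (hn : 3 ≤ n) : Continuous (prj hn) :=
  LipschitzWith.continuous (K := 1) (LipschitzWith.of_dist_le_mul (fun w w' => by
    simpa using prj_dist hn w w'))

/-- **Negative answer to Q1, for every `n ≥ 3`.** -/
theorem result : ∀ n : ℕ, 3 ≤ n → ∃ K : Set (EuclideanSpace ℝ (Fin n)),
    IsCompact K ∧ IsConnected K ∧ ∃ p ∈ K, ∃ q ∈ K, ∃ ε : ℝ, 0 < ε ∧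
      ∀ γ : ℝ → EuclideanSpace ℝ (Fin n), ContinuousOn γ (Icc 0 1) → γ 0 = p → γ 1 = q →
        ENNReal.ofReal ε ≤ excursionLength K γ := by
  intro n hn
  classical
  have hKc : IsCompact (emb n '' K3) := K3_compact.image (emb_cont n)
  refine ⟨emb n '' K3, hKc, K3_connected.image _ (emb_cont n).continuousOn, ?_⟩
  have hmem : ∀ w ∈ emb n '' K3, prj hn w ∈ K3 := by
    rintro _ ⟨z, hz, rfl⟩
    rw [prj_emb]; exact hz
  have hsel : ∀ w, ∃ s, w ∈ emb n '' K3 → ∀ e, 0 < rf e (prj hn w).1 → Rep e (prj hn w) s := by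
    intro w
    by_cases hw : w ∈ emb n '' K3
    · obtain ⟨s, hs⟩ := exists_rep (hmem w hw)
      exact ⟨s, fun _ => hs⟩
    · exact ⟨fun _ => 0, fun h => absurd h hw⟩
  choose sel hsel using hsel
  have hLip : ∀ w w', w ∈ emb n '' K3 → w' ∈ emb n '' K3 →
      |PP (sel w) - PP (sel w')| ≤ 30 * dist w w' := by
    intro w w' hw hw'
    have h1 := lip (hsel w hw) (hsel w' hw')
    have h2 := prj_dist hn w w'
    linarith
  have i0 : (0 : ℝ) ∈ Icc (0 : ℝ) 1 := ⟨le_rfl, zero_le_one⟩
  have hpt : ∀ s : Sg, emb n (pt 0 s s 0) ∈ emb n '' K3 := fun s => ⟨_, strand_mem 0 s i0, rfl⟩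
  have hP : ∀ s : Sg, PP (sel (emb n (pt 0 s s 0))) = PP s := by
    intro s
    have h1 := hsel _ (hpt s)
    have h2 : ∀ e, 0 < rf e (prj hn (emb n (pt 0 s s 0))).1 →
        Rep e (prj hn (emb n (pt 0 s s 0))) s := by
      intro e _
      rw [prj_emb]
      refine Or.inl ⟨rfl, Or.inl ?_⟩
      show rf e 0 ≤ 1
      unfold rf; cases e <;> simp
    have h3 := lip h1 h2
    rw [dist_self, mul_zero] at h3
    exact sub_eq_zero.1 (abs_nonpos_iff.1 h3)
  refine ⟨emb n (pt 0 (fun _ => 0) (fun _ => 0) 0), hpt _,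
    emb n (pt 0 (fun _ => 2) (fun _ => 2) 0), hpt _, 1 / 30, by norm_num, ?_⟩
  intro γ hγ h0 h1
  have hlow := lower_bound (K := emb n '' K3) (γ := γ) hKc.isClosed
    (fun e => {w | 0 < rf e (prj hn w).1})
    (fun e => isOpen_lt continuous_const
      ((rf_cont e).comp (continuous_fst.comp (prj_cont hn))))
    (fun w _ => by
      rcases lt_or_ge 0 (prj hn w).1 with h | h
      · exact ⟨false, by simpa [rf] using h⟩
      · exact ⟨true, by
          show 0 < rf true (prj hn w).1
          simp only [rf, if_true]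
          linarith⟩)
    (fun w => PP (sel w)) (fun e m w => gr e.toNat m (sel w)) (1 / 5) 2 (2 / 5) 30
    (by norm_num) (by norm_num) (by norm_num) (by norm_num) (by norm_num)
    (fun e m w w' hw hw' ha ha' hg => by
      have h2 := sep (hsel w hw e ha) (hsel w' hw' e ha') hg
      have h3 := prj_dist hn w w'
      linarith)
    (fun e m w w' _ _ _ _ hg => PP_gr hg)
    hLip hγ (h0 ▸ hpt _) (h1 ▸ hpt _)
  simp only [h0, h1, hP] at hlow
  have e0 : PP (fun _ => 0) = 0 := SS_zero (d := 0) (by unfold pw; norm_num) (fun _ => rfl)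
  have e1 : PP (fun _ => 2) = 1 :=
    SS_const ok_pw (d := 2) (by unfold pw; norm_num) (fun _ => rfl)
  rw [e0, e1, sub_zero] at hlow
  have h30 : ENNReal.ofReal (1 / 30) * ENNReal.ofReal 30 = 1 := by
    rw [← ENNReal.ofReal_mul (by norm_num)]; norm_num
  calc ENNReal.ofReal (1 / 30) = ENNReal.ofReal (1 / 30) * ENNReal.ofReal 1 := by simp
    _ ≤ ENNReal.ofReal (1 / 30) * (ENNReal.ofReal 30 * excursionLength (emb n '' K3) γ) := by
        gcongr
    _ = excursionLength (emb n '' K3) γ := by rw [← mul_assoc, h30, one_mul]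

end Pool.Agent.Results.MP_5069ae_gt.ShortExcursions
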